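import Mathlib
import Pool.Agent.helper68.AM.Spec

/-! Module GF of project AM: the one-sided derivatives are exponentially close to the lengths. -/

set_option autoImplicit false

namespace AM

open Pool.Agent.helper72.Sq Finset

theorem GF_real (la nu x y z sa sb κ k c : ℝ) (hla : 0 < la) (hnu : 0 < nu)
    (hx : x = la + 1 / la) (hy : y = nu + 1 / nu) (hsa : sa = (la - 1 / la) / 2)
    (hsb : sb = (nu - 1 / nu) / 2) (hsa0 : 0 < sa) (hsb0 : 0 < sb)
    (hid : (2 * (x / 2 * (y / 2) + sa * sb) - z) * (z - 2 * (x / 2 * (y / 2) - sa * sb)) = κ + 4)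
    (hκ0 : 0 < κ) (hκ : κ ≤ k) (hz : x * y ≤ 2 * z) (hc : 0 < c) (h1 : c * la ≤ sa)
    (h2 : c * nu ≤ sb) :
    2 * Real.log nu - 2 * Real.log ((z - y * (1 / la)) / (la - 1 / la)) ≤
      (k + 4) / c ^ 3 * (1 / (la ^ 2 * nu ^ 2)) := by
  have hsab : 0 < sa * sb := mul_pos hsa0 hsb0
  set S := 2 * (x / 2 * (y / 2) + sa * sb) - z with hS
  set W := z - 2 * (x / 2 * (y / 2) - sa * sb) with hW
  have hW1 : 2 * (sa * sb) ≤ W := by rw [hW]; linarith
  have hW0 : 0 < W := by linarith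
  have hS1 : S = (κ + 4) / W := by
    rw [eq_div_iff hW0.ne']; exact hid
  have hS0 : 0 < S := by rw [hS1]; positivity
  have hS2 : S ≤ (k + 4) / (2 * (sa * sb)) := by
    rw [hS1]
    exact div_le_div₀ (by linarith) (by linarith) (by positivity) hW1
  have e2 : la - 1 / la = 2 * sa := by rw [hsa]; ring
  set c1 := (z - y * (1 / la)) / (la - 1 / la) with hc1
  have hkey : z - y * (1 / la) = nu * (2 * sa) - S := by
    have e3 : z = 2 * (x / 2 * (y / 2) + sa * sb) - S := by rw [hS]; ring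
    rw [e3, hx, hy, hsa, hsb]
    field_simp
    ring
  have hc1e : c1 = nu - S / (2 * sa) := by
    rw [hc1, e2, hkey]
    field_simp
  have hy0 : 0 < y := by rw [hy]; positivity
  have hnuy : nu ≤ y := by rw [hy]; have : 0 < 1 / nu := by positivity
                           linarith
  have hc1lo : nu / 2 ≤ c1 := by
    have h3 : y * sa ≤ z - y * (1 / la) := by
      have e4 : y * sa = x * y / 2 - y * (1 / la) := by rw [hsa, hx]; ring
      rw [e4]; linarith
    rw [hc1, e2, le_div_iff₀ (by linarith)]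
    nlinarith
  have hc10 : 0 < c1 := by linarith
  have hlog : Real.log nu - Real.log c1 ≤ nu / c1 - 1 := by
    rw [← Real.log_div hnu.ne' hc10.ne']
    exact Real.log_le_sub_one_of_pos (by positivity)
  have h4 : nu / c1 - 1 ≤ S / (sa * nu) := by
    have e5 : nu / c1 - 1 = (S / (2 * sa)) / c1 := by
      rw [div_sub_one hc10.ne', hc1e]; ring
    rw [e5]
    calc S / (2 * sa) / c1 ≤ S / (2 * sa) / (nu / 2) :=
          div_le_div_of_nonneg_left (by positivity) (by positivity) hc1lo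
      _ = S / (sa * nu) := by field_simp
  have h5 : S / (sa * nu) ≤ (k + 4) / (2 * (sa * sb)) / (sa * nu) :=
    div_le_div_of_nonneg_right hS2 (by positivity)
  have h6 : c ^ 3 * (la ^ 2 * nu ^ 2) ≤ sa * sb * (sa * nu) := by
    calc c ^ 3 * (la ^ 2 * nu ^ 2) = (c * la) * (c * nu) * ((c * la) * nu) := by ring
      _ ≤ sa * sb * (sa * nu) := by gcongr
  have hk4 : 0 < k + 4 := by linarith
  calc 2 * Real.log nu - 2 * Real.log c1 = 2 * (Real.log nu - Real.log c1) := by ring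
    _ ≤ 2 * ((k + 4) / (2 * (sa * sb)) / (sa * nu)) := by linarith
    _ = (k + 4) / (sa * sb * (sa * nu)) := by field_simp
    _ ≤ (k + 4) / (c ^ 3 * (la ^ 2 * nu ^ 2)) :=
        div_le_div_of_nonneg_left hk4.le (by positivity) h6
    _ = (k + 4) / c ^ 3 * (1 / (la ^ 2 * nu ^ 2)) := by
        rw [div_mul_div_comm, mul_one]

/-- one side of GF -/
theorem GF_one (k t0 : ℝ) (ht0 : 2 < t0) (Q : Tri) (h : Gr Q) (hk : kap Q ≤ k)
    (hx0 : t0 ≤ Q.1) (hy0 : t0 ≤ Q.2.1) :
    len Q.2.1 - E1 Q ≤ (k + 4) / (Real.sinh (len t0 / 2) / Real.exp (len t0 / 2)) ^ 3 *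
      Real.exp (-(len Q.1 + len Q.2.1)) := by
  have hx := h.x2
  have hy := h.y2
  have hlt : 0 < len t0 := len_pos ht0
  have hlx : 0 < len Q.1 := len_pos hx
  have hly : 0 < len Q.2.1 := len_pos hy
  have hmx : len t0 ≤ len Q.1 := len_mono ht0.le hx0
  have hmy : len t0 ≤ len Q.2.1 := len_mono ht0.le hy0
  have hid := main_ident Q hx.le hy.le
  have hcx := cosh_half_len hx.le
  have hcy := cosh_half_len hy.le
  have hr1 := sinh_ratio (a := len Q.1 / 2) (b := len t0 / 2) (by linarith)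
  have hr2 := sinh_ratio (a := len Q.2.1 / 2) (b := len t0 / 2) (by linarith)
  have hz := h.zbig
  have hE1 : E1 Q = 2 * Real.log ((Q.2.2 - Q.2.1 * Real.exp (-(len Q.1 / 2))) /
    (Real.exp (len Q.1 / 2) - Real.exp (-(len Q.1 / 2)))) := rfl
  have hs0 : 0 < Real.sinh (len t0 / 2) := Real.sinh_pos_iff.2 (by linarith)
  have he0 : 0 < Real.exp (len t0 / 2) := Real.exp_pos _
  have hsa : 0 < Real.sinh (len Q.1 / 2) := Real.sinh_pos_iff.2 (by linarith)
  have hsb : 0 < Real.sinh (len Q.2.1 / 2) := Real.sinh_pos_iff.2 (by linarith)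
  have hexp : Real.exp (-(len Q.1 + len Q.2.1)) =
      1 / (Real.exp (len Q.1 / 2) ^ 2 * Real.exp (len Q.2.1 / 2) ^ 2) := by
    rw [Real.exp_neg, ← Real.exp_nat_mul, ← Real.exp_nat_mul, ← Real.exp_add, one_div]
    congr 2
    push_cast; ring
  have hlogy : len Q.2.1 = 2 * Real.log (Real.exp (len Q.2.1 / 2)) := by
    rw [Real.log_exp]; ring
  have hneg : Real.exp (-(len Q.1 / 2)) = 1 / Real.exp (len Q.1 / 2) := by
    rw [Real.exp_neg, one_div]
  have hnegb : Real.exp (-(len Q.2.1 / 2)) = 1 / Real.exp (len Q.2.1 / 2) := by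
    rw [Real.exp_neg, one_div]
  rw [Real.cosh_add, Real.cosh_sub, hcx, hcy] at hid
  have hsae : Real.sinh (len Q.1 / 2) = (Real.exp (len Q.1 / 2) - 1 / Real.exp (len Q.1 / 2)) / 2 := by
    rw [Real.sinh_eq, hneg]
  have hsbe : Real.sinh (len Q.2.1 / 2) =
      (Real.exp (len Q.2.1 / 2) - 1 / Real.exp (len Q.2.1 / 2)) / 2 := by
    rw [Real.sinh_eq, hnegb]
  have hxe : Q.1 = Real.exp (len Q.1 / 2) + 1 / Real.exp (len Q.1 / 2) := by
    rw [Real.cosh_eq, hneg] at hcx; linarith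
  have hye : Q.2.1 = Real.exp (len Q.2.1 / 2) + 1 / Real.exp (len Q.2.1 / 2) := by
    rw [Real.cosh_eq, hnegb] at hcy; linarith
  have hmain := GF_real (Real.exp (len Q.1 / 2)) (Real.exp (len Q.2.1 / 2)) Q.1 Q.2.1 Q.2.2
    (Real.sinh (len Q.1 / 2)) (Real.sinh (len Q.2.1 / 2)) (kap Q) k
    (Real.sinh (len t0 / 2) / Real.exp (len t0 / 2)) (Real.exp_pos _) (Real.exp_pos _) hxe hye
    hsae hsbe hsa hsb hid h.kpos hk hz (by positivity)
    (by rw [div_mul_eq_mul_div, div_le_iff₀ he0]; exact hr1)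
    (by rw [div_mul_eq_mul_div, div_le_iff₀ he0]; exact hr2)
  rw [hE1, hexp, hneg]
  rw [← hlogy] at hmain
  exact hmain

theorem GF : GF_stmt := by
  intro k t0 hk0 ht0
  have hlt : 0 < len t0 := len_pos ht0
  have hs0 : 0 < Real.sinh (len t0 / 2) := Real.sinh_pos_iff.2 (by linarith)
  have he0 : 0 < Real.exp (len t0 / 2) := Real.exp_pos _
  refine ⟨(k + 4) / (Real.sinh (len t0 / 2) / Real.exp (len t0 / 2)) ^ 3, by positivity, ?_⟩
  intro Q hQ hk hx hy
  refine ⟨GF_one k t0 ht0 Q hQ hk hx hy, ?_⟩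
  have hQ' : Gr ((Q.2.1, Q.1, Q.2.2) : Tri) := by
    refine ⟨hQ.y2, hQ.x2, ?_, ?_⟩
    · have := hQ.kpos
      simp only [kap] at this ⊢
      linarith
    · have := hQ.zbig
      simp only
      linarith
  have hk' : kap ((Q.2.1, Q.1, Q.2.2) : Tri) ≤ k := by
    simp only [kap] at hk ⊢
    linarith
  have h := GF_one k t0 ht0 (Q.2.1, Q.1, Q.2.2) hQ' hk' hy hx
  have e : E1 ((Q.2.1, Q.1, Q.2.2) : Tri) = E2 Q := rfl
  rw [e] at h
  simp only at h
  rw [add_comm (len Q.1)]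
  exact h

end AM
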