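import Pool.Agent.helper68.AM.SpecX

set_option autoImplicit false

namespace AM

open Pool.Agent.helper72.Sq Matrix

theorem XE_twA_inv_b : (twA⁻¹ : MulAut F2) gb = ga⁻¹ * gb := by
  have h : twA (ga⁻¹ * gb) = gb := by
    simp only [map_mul, map_inv, twA_a, twA_b]; group
  calc (twA⁻¹ : MulAut F2) gb = (twA⁻¹ : MulAut F2) (twA (ga⁻¹ * gb)) := by rw [h]
    _ = ga⁻¹ * gb := MulAut.inv_apply_self _ _ _

theorem XE_twA_inv_a : (twA⁻¹ : MulAut F2) ga = ga := by
  have h : twA ga = ga := twA_a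
  calc (twA⁻¹ : MulAut F2) ga = (twA⁻¹ : MulAut F2) (twA ga) := by rw [h]
    _ = ga := MulAut.inv_apply_self _ _ _

theorem XE_psi : (twB * twA⁻¹ * twB : MulAut F2) ga = gb := by
  rw [MulAut.mul_apply, MulAut.mul_apply]
  have h1 : (twB : MulAut F2) ga = ga * gb := twB_a
  have h2 : (twB : MulAut F2) gb = gb := twB_b
  rw [h1, map_mul, XE_twA_inv_a, XE_twA_inv_b, ← mul_assoc, mul_inv_cancel, one_mul, h2]

theorem XE_mA : twA ∈ MCG := Subgroup.subset_closure (by simp)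
theorem XE_mB : twB ∈ MCG := Subgroup.subset_closure (by simp)

theorem XE : XE_stmt := by
  intro ρ hA φ hφ
  have hψ : (twB * twA⁻¹ * twB : MulAut F2) ∈ MCG :=
    MCG.mul_mem (MCG.mul_mem XE_mB (MCG.inv_mem XE_mA)) XE_mB
  refine ⟨tr_gt ρ hA hφ, ?_, ?_, ?_, ?_⟩
  · have h := tr_gt ρ hA (MCG.mul_mem hφ hψ)
    rwa [MulAut.mul_apply, XE_psi] at h
  · have h := tr_gt ρ hA (MCG.mul_mem hφ XE_mB)
    have h1 : (twB : MulAut F2) ga = ga * gb := twB_a
    rwa [MulAut.mul_apply, h1, map_mul, map_mul] at h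
  · have h := tr_gt ρ hA (MCG.mul_mem hφ (MCG.mul_mem (MCG.inv_mem XE_mA) hψ))
    rwa [MulAut.mul_apply, MulAut.mul_apply, XE_psi, XE_twA_inv_b, map_mul, map_mul, map_inv,
      map_inv] at h
  · have h1 := tr_isConj ρ (kom_MCG φ hφ)
    simp only [kom, map_mul, map_inv] at h1
    rw [h1, tr_commutator]
    simp only [kap, trTri, map_mul]
    ring

end AM
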