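import Pool.Agent.helper68.AM.SpecX

set_option autoImplicit false

namespace AM

open Pool.Agent.helper72.Sq Matrix

theorem XW_arcosh_le {u : ℝ} (hu : 1 ≤ u) : Real.arcosh u ≤ Real.log (2 * u) := by
  unfold Real.arcosh
  apply Real.log_le_log
  · have := Real.sqrt_nonneg (u ^ 2 - 1)
    linarith
  · have h : √(u ^ 2 - 1) ≤ u := by
      rw [Real.sqrt_le_left (by linarith)]
      linarith
    linarith

theorem XW_le_arcosh {u : ℝ} (hu : 1 ≤ u) : Real.log u ≤ Real.arcosh u := by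
  unfold Real.arcosh
  apply Real.log_le_log (by linarith)
  have := Real.sqrt_nonneg (u ^ 2 - 1)
  linarith

/-- XW -/
theorem XW (hE : XE_stmt) (hC : XC_stmt) (hT : XT_stmt) : XW_stmt := by
  intro ρ hA n1 m1 n2 m2 hn1 hm1 hn2 hm2
  set κ := kap (trTri ρ (ga, gb)) with hκ
  have hκ0 : 0 < κ := hA.kpos
  set τ : ℝ := -2 - κ with hτ
  refine ⟨2 * Real.log (16 - τ) + (2 * Real.log n1 + 2 * Real.log m1 + 2 * Real.log n2 +
    2 * Real.log m2), ?_⟩
  intro φ hφ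
  obtain ⟨hx, hy, -, -, hcom⟩ := hE ρ hA φ hφ
  set x := tr (ρ (φ ga)) with hxd
  set y := tr (ρ (φ gb)) with hyd
  obtain ⟨hU, hL⟩ := hT (ρ (φ ga)) (ρ (φ gb)) τ hx.le hy.le hcom (by rw [hτ]; linarith) n1 m1 n2 m2
    hn1 hm1 hn2 hm2
  obtain ⟨p1, p2, -, -⟩ := hC x n1 hx.le hn1
  obtain ⟨q1, q2, -, -⟩ := hC y m1 hy.le hm1
  obtain ⟨r1, r2, -, -⟩ := hC x n2 hx.le hn2
  obtain ⟨s1, s2, -, -⟩ := hC y m2 hy.le hm2
  rw [← hxd, ← hyd] at hU hL
  set a := sn x n1 with ha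
  set b := sn y m1 with hb
  set c := sn x n2 with hc
  set d := sn y m2 with hd
  have hab : 1 ≤ a * b := one_le_mul_of_one_le_of_one_le p1 q1
  have habc : 1 ≤ a * b * c := one_le_mul_of_one_le_of_one_le hab r1
  have hS : 1 ≤ a * b * c * d := one_le_mul_of_one_le_of_one_le habc s1
  set S := a * b * c * d with hSd
  have hw : ρ (φ (w4 n1 m1 n2 m2)) = ρ (φ ga) ^ n1 * ρ (φ gb) ^ m1 * (ρ (φ ga) ^ n2)⁻¹ *
      (ρ (φ gb) ^ m2)⁻¹ := by
    simp only [w4, map_mul, map_pow, map_inv]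
  set T := tr (ρ (φ ga) ^ n1 * ρ (φ gb) ^ m1 * (ρ (φ ga) ^ n2)⁻¹ * (ρ (φ gb) ^ m2)⁻¹) with hTd
  have hTneg : T < 0 := by nlinarith
  have hT1 : (2 : ℝ) * S ≤ |T| := by
    rw [abs_of_neg hTneg]
    nlinarith
  have hT2 : |T| ≤ (16 - τ) * S := by
    rw [abs_of_neg hTneg]
    nlinarith
  have hTu : 1 ≤ |T| / 2 := by linarith
  have hlogS : Real.log S = Real.log a + Real.log b + Real.log c + Real.log d := by
    rw [hSd, Real.log_mul (by positivity) (by positivity), Real.log_mul (by positivity) (by positivity),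
      Real.log_mul (by positivity) (by positivity)]
  have g1 : gLen ρ (φ (w4 n1 m1 n2 m2)) = 2 * Real.arcosh (|T| / 2) := by
    unfold gLen
    rw [hw]
  have g2 : gLen ρ (φ ga) = len x := by
    unfold gLen len
    rw [← hxd, abs_of_pos (by linarith)]
  have g3 : gLen ρ (φ gb) = len y := by
    unfold gLen len
    rw [← hyd, abs_of_pos (by linarith)]
  have l1 : Real.log S ≤ Real.arcosh (|T| / 2) := by
    refine le_trans ?_ (XW_le_arcosh hTu)
    exact Real.log_le_log (by linarith) (by linarith)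
  have l2 : Real.arcosh (|T| / 2) ≤ Real.log (16 - τ) + Real.log S := by
    refine (XW_arcosh_le hTu).trans ?_
    rw [← Real.log_mul (by linarith) (by positivity)]
    exact Real.log_le_log (by linarith) (by linarith)
  have l3 : 0 ≤ Real.log (16 - τ) := Real.log_nonneg (by linarith)
  show |gLen ρ (φ (w4 n1 m1 n2 m2)) - (((n1 + n2 : ℝ) - 2) * gLen ρ (φ ga) +
    ((m1 + m2 : ℝ) - 2) * gLen ρ (φ gb))| ≤ _
  rw [g1, g2, g3]
  rw [abs_le] at p2 q2 r2 s2 ⊢
  constructor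
  · nlinarith [p2.1, q2.1, r2.1, s2.1]
  · nlinarith [p2.2, q2.2, r2.2, s2.2]

end AM
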